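import Mathlib
import Pool.Agent.MUR.Main

set_option autoImplicit false

/-!
Murty's question with `a b + 1`, for almost all `n`: the positive integers `n` that are not of the
form `n = a + b` with positive integers `a, b` and `a b + 1` prime have natural density zero.
-/

namespace Pool.Agent.Results.MP_f8fff1_nt.AlmostAllPlus

open Classical in
theorem result : ∀ ε : ℝ, 0 < ε → ∃ N₀ : ℕ, ∀ N : ℕ, N₀ ≤ N →
    (((Finset.Icc 1 N).filter (fun n : ℕ =>
      ¬ ∃ a b : ℕ, 0 < a ∧ 0 < b ∧ a + b = n ∧ (a * b + 1).Prime)).card : ℝ) ≤ ε * N := by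
  intro ε hε
  obtain ⟨N₀, h⟩ := MUR.t_main 1 (Or.inl rfl) ε hε
  refine ⟨N₀, fun N hN => le_trans ?_ (h N hN)⟩
  have hsub : (Finset.Icc 1 N).filter (fun n : ℕ =>
      ¬ ∃ a b : ℕ, 0 < a ∧ 0 < b ∧ a + b = n ∧ (a * b + 1).Prime) ⊆
      (Finset.Icc 1 N).filter (fun n : ℕ => MUR.Exc 1 n) := by
    intro n hn
    rw [Finset.mem_filter] at hn ⊢
    refine ⟨hn.1, ?_⟩
    rintro ⟨a, b, ha, hb, hab, hp⟩
    refine hn.2 ⟨a, b, ha, hb, hab, ?_⟩
    have h1 : MUR.mv 1 (a * b) = a * b + 1 := by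
      unfold MUR.mv
      omega
    rwa [h1] at hp
  exact_mod_cast Finset.card_le_card hsub

end Pool.Agent.Results.MP_f8fff1_nt.AlmostAllPlus
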